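import Mathlib
import Pool.Agent.H39.Real1

set_option autoImplicit false

namespace Pool.Agent.Results.MP_daea50_lc.MinimalFSigma

open Set Filter Topology MeasureTheory TopologicalSpace Pool.Agent.H39.LN

theorem core {X : Type} [TopologicalSpace X] [PolishSpace X] [MeasurableSpace X] [BorelSpace X]
    {E : X → X → Prop} (hE : Equivalence E) {g : ℕ → X → X} (hgE : ∀ x y, E x y ↔ ∃ n, g n x = y)
    {lab : X → Option (List ℕ)} {θ : (ℕ → ℕ) → X} {φ : X → ℕ → ℕ} {b : X → ℝ}
    (hθ : ∀ α β, E (θ α) (θ β) → α = β) (h1 : ∀ α, φ (θ α) = α) (h2 : ∀ α, lab (θ α) = none)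
    (h3 : ∀ x, lab x = none → θ (φ x) = x) (h4 : ∀ x s, ∃ y, E x y ∧ lab y = some s)
    (hb : Function.Injective b) (c1 : Continuous b) (c2 : ∀ k, Continuous (b ∘ g k))
    (c3 : ∀ o, IsClosed {x | lab x = o}) (c4 : ∀ k o, IsClosed {x | lab (g k x) = o})
    (c5 : Continuous φ) (c6 : ∀ k, Continuous (φ ∘ g k)) :
    ∃ (Y : Type) (_ : TopologicalSpace Y) (_ : PolishSpace Y) (_ : MeasurableSpace Y)
      (_ : BorelSpace Y) (F : Y → Y → Prop) (f : X → Y), Equivalence F ∧ Function.Bijective f ∧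
      Measurable f ∧ (∀ x x', E x x' ↔ F (f x) (f x')) ∧
      (∃ C : ℕ → Set (Y × Y), (∀ n, IsClosed (C n)) ∧ {p | F p.1 p.2} = ⋃ n, C n) ∧
      ∀ y, Dense {y' | F y y'} := by
  classical
  let x0 := θ 0
  have h5 : ∀ s, Nonempty {x | lab x = some s} := fun s => (h4 x0 s).elim fun y hy => ⟨⟨y, hy.2⟩⟩
  let d : List ℕ → ℕ → X := fun s k => denseSeq {x | lab x = some s} (Nat.unpair k).1
  have hd : ∀ s k, lab (d s k) = some s := fun s k => (denseSeq {x | lab x = some s} _).2
  have hS : IsClosed (Sp d x0 lab) := closed_Sp c3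
  have h6 : ∀ α, br d x0 α ∈ Sp d x0 lab := fun α => hS.mem_of_tendsto
    (tendsto_br α fun n => d _ 0) (Eventually.of_forall fun n => pt_mem hd (hd _ _))
  let Φ : Option (List ℕ) → X → List ℕ → Bool × X := fun o x =>
    o.elim (br d x0 (φ x)) fun s => pt d x0 s x
  have h7 : ∀ x, Φ (lab x) x ∈ Sp d x0 lab := fun x => by
    rcases h : lab x with _ | s
    exacts [h6 _, pt_mem hd h]
  let f : X → Sp d x0 lab := fun x => ⟨_, h7 x⟩
  have f1 : ∀ x, lab x = none → (f x).1 = br d x0 (φ x) := fun x h => by simp [f, Φ, h]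
  have f2 : ∀ x s, lab x = some s → (f x).1 = pt d x0 s x := fun x s h => by simp [f, Φ, h]
  have f3 : ∀ x s, (f x).1 ∈ P s → lab x = some s := fun x s h => by
    rcases h' : lab x with _ | t
    · exact (br_P _ _ (f1 x h' ▸ h)).elim
    · rw [f2 x t h', pt_P] at h
      rw [h]
  have f4 : ∀ x s, lab x = some s → (f x).1 ∈ P s ∧ ((f x).1 s).2 = x := fun x s h => by
    rw [f2 x s h]
    exact ⟨pt_P.2 rfl, by simp⟩
  have h8 : Function.Bijective f := by
    refine ⟨fun x y h => ?_, fun y => ?_⟩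
    · rcases h8 : lab x with _ | s
      · rcases h9 : lab y with _ | t
        · rw [← h3 x h8, ← h3 y h9, br_inj ((f1 x h8).symm.trans (h ▸ f1 y h9))]
        · simpa [h8] using f3 x t (h ▸ (f4 y t h9).1)
      · rw [← (f4 x s h8).2, h, (f4 y s (f3 y s (h ▸ (f4 x s h8).1))).2]
    · by_cases h8 : ∃ s, y.1 ∈ P s
      · obtain ⟨s, hs⟩ := h8
        exact ⟨_, Subtype.ext ((f2 _ s (y.2.2.2.2.1 s hs.1)).trans (eq_of_P y.2 hs).symm)⟩
      · obtain ⟨α, hα⟩ := eq_br y.2 (not_exists.1 h8)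
        exact ⟨θ α, Subtype.ext (by rw [f1 _ (h2 α), h1, hα])⟩
  let e := Equiv.ofBijective f h8
  have he : ∀ x, e.symm (f x) = x := e.symm_apply_apply
  have := hS.polishSpace
  refine ⟨Sp d x0 lab, inferInstance, this, borel _, @BorelSpace.mk _ _ (borel _) rfl,
    fun y y' => E (e.symm y) (e.symm y'), f, hE.comap _, h8, ?_, fun x x' => by simp only [he], ?_,
    fun y => ?_⟩
  · borelize (List ℕ → Bool × X)
    have h9 : BorelSpace (Sp d x0 lab) := inferInstance
    rw [← h9.measurable_eq]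
    refine Measurable.subtype_mk fun A hA => ?_
    have : (fun x => Φ (lab x) x) ⁻¹' A = ⋃ o, {x | lab x = o} ∩ Φ o ⁻¹' A := by
      ext x
      simp
    rw [this]
    refine MeasurableSet.iUnion fun o => (c3 o).measurableSet.inter (Continuous.measurable ?_ hA)
    cases o
    exacts [cont_br.comp c5, cont_pt _]
  · let B : ℕ × List ℕ × Option (List ℕ) → Set (Sp d x0 lab × Sp d x0 lab) := fun i =>
      {p | p.1.1 ∈ P i.2.1 ∧ lab (g i.1 (p.1.1 i.2.1).2) = i.2.2 ∧
        i.2.2.elim (p.2.1 = br d x0 (φ (g i.1 (p.1.1 i.2.1).2)))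
          fun t => p.2.1 ∈ P t ∧ b (p.2.1 t).2 = b (g i.1 (p.1.1 i.2.1).2)}
    have b1 : ∀ i, IsClosed (B i) := by
      rintro ⟨k, s, o⟩
      have hc' : ∀ s, Continuous fun p : Sp d x0 lab => (p.1 s).2 := fun s =>
        ((continuous_apply s).comp continuous_subtype_val).snd
      have hc := (hc' s).comp (continuous_fst (Y := Sp d x0 lab))
      refine ((closed_P s).preimage (by fun_prop)).inter (((c4 k o).preimage hc).inter ?_)
      rcases o with _ | t
      · exact isClosed_eq (by fun_prop) (cont_br.comp ((c6 k).comp hc))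
      · exact ((closed_P t).preimage (by fun_prop)).inter
          (isClosed_eq (c1.comp ((hc' t).comp continuous_snd)) ((c2 k).comp hc))
    have b2 : ∀ x y, (∃ i, (f x, f y) ∈ B i) ↔ E x y ∧ lab x ≠ none := fun x y => by
      constructor
      · rintro ⟨⟨k, s, o⟩, a1, a2, a3⟩
        have a4 := f3 x s a1
        simp only [(f4 x s a4).2] at a2 a3
        refine ⟨(hgE _ _).2 ⟨k, ?_⟩, by simp [a4]⟩
        rcases o with _ | t
        · exact h8.1 (Subtype.ext ((f1 _ a2).trans a3.symm))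
        · exact hb (a3.2.symm.trans (congrArg b (f4 y t (f3 y t a3.1)).2))
      · rintro ⟨a1, a2⟩
        obtain ⟨k, rfl⟩ := (hgE _ _).1 a1
        obtain ⟨s, a3⟩ := Option.ne_none_iff_exists'.1 a2
        refine ⟨(k, s, lab (g k x)), (f4 x s a3).1, by simp only [(f4 x s a3).2], ?_⟩
        simp only [(f4 x s a3).2]
        rcases a4 : lab (g k x) with _ | t
        · exact f1 _ a4
        · exact ⟨(f4 _ t a4).1, congrArg b (f4 _ t a4).2⟩
    obtain ⟨u, hu⟩ := exists_surjective_nat (ℕ × List ℕ × Option (List ℕ))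
    refine ⟨fun n => diagonal _ ∪ (B (u n) ∪ Prod.swap ⁻¹' B (u n)), fun n => isClosed_diagonal.union
      ((b1 _).union ((b1 _).preimage continuous_swap)), ?_⟩
    rw [hu.iUnion_comp fun i => diagonal _ ∪ (B i ∪ Prod.swap ⁻¹' B i)]
    ext ⟨y, y'⟩
    obtain ⟨x, rfl⟩ := h8.2 y
    obtain ⟨x', rfl⟩ := h8.2 y'
    simp only [mem_ofPred_eq, he, mem_iUnion, mem_union, mem_diagonal_iff, mem_preimage,
      Prod.swap_prod_mk, exists_or, b2, exists_const, h8.1.eq_iff]
    refine ⟨fun h => ?_, ?_⟩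
    · by_contra a1
      simp only [h, hE.symm h, true_and, not_or, not_not] at a1
      refine a1.1 ?_
      rw [← h3 x a1.2.1, ← h3 x' a1.2.2] at h ⊢
      rw [hθ _ _ h]
    · rintro (rfl | h | h)
      exacts [hE.refl _, h.1, hE.symm h.1]
  · choose c a1 a2 using h4 (e.symm y)
    have a3 : ∀ (z : Sp d x0 lab) (s : ℕ → List ℕ),
        Tendsto (fun i => pt d x0 (s i) (c (s i))) atTop (𝓝 z.1) →
        z ∈ closure {y' | E (e.symm y) (e.symm y')} := fun z s h =>
      mem_closure_of_tendsto (f := fun i => f (c (s i))) (b := atTop)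
        (tendsto_subtype_rng.2 (h.congr fun i => (f2 _ _ (a2 _)).symm))
        (Eventually.of_forall fun i => by rw [mem_ofPred_eq, he]; exact a1 _)
    intro z
    obtain ⟨x, rfl⟩ := h8.2 z
    rcases a4 : lab x with _ | s
    · exact a3 _ _ (f1 x a4 ▸ tendsto_br _ _)
    · obtain ⟨v, a5, a6⟩ := mem_closure_iff_seq_limit.1
        (denseRange_denseSeq {x | lab x = some s} ⟨x, a4⟩)
      choose m hm using a5
      refine a3 _ (fun i => Nat.pair (m i) i :: s) (f2 x s a4 ▸ tendsto_pt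
        (fun i => Nat.right_le_pair _ _) ?_ _)
      simp only [d, Nat.unpair_pair, hm]
      exact tendsto_subtype_rng.1 a6

theorem result (X : Type) [MeasurableSpace X] [StandardBorelSpace X] [Uncountable X]
    (E : X → X → Prop) (hE : Equivalence E) (hB : MeasurableSet {p : X × X | E p.1 p.2})
    (hc : ∀ x, {y | E x y}.Countable) (hi : ∀ x, {y | E x y}.Infinite) :
    ∃ (Y : Type) (_ : TopologicalSpace Y) (_ : PolishSpace Y) (_ : MeasurableSpace Y)
      (_ : BorelSpace Y) (F : Y → Y → Prop) (f : X → Y), Equivalence F ∧ Function.Bijective f ∧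
      Measurable f ∧ (∀ x x', E x x' ↔ F (f x) (f x')) ∧
      (∃ C : ℕ → Set (Y × Y), (∀ n, IsClosed (C n)) ∧ {p | F p.1 p.2} = ⋃ n, C n) ∧
      ∀ y, Dense {y' | F y y'} := by
  classical
  obtain ⟨g, g1, g2⟩ := exists_graphs hE.refl hB hc
  obtain ⟨θ, t1, t2⟩ := exists_transv hE hc g1 g2
  obtain ⟨c, c1, c2⟩ := exists_onto hE hi g1 g2
  obtain ⟨u, hu⟩ := exists_surjective_nat (List ℕ × Bool)
  let l : X → ℕ := fun x => if x ∈ range θ then 0 else c x + 1
  have l1 : Measurable l := Measurable.ite t1.measurableSet_range measurable_const (by fun_prop)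
  let v : ℕ → Option (List ℕ) := fun n => n.casesOn none fun m => some (u m).1
  have hb := measurableEmbedding_embeddingReal X
  let H : X → ℝ × ℕ × (ℕ → ℕ) := fun x => (embeddingReal X x, l x, t1.invFun x)
  have h1 : Measurable H := hb.measurable.prodMk (l1.prodMk t1.measurable_invFun)
  have : BorelSpace (ℝ × ℕ × (ℕ → ℕ)) := inferInstance
  have : BorelSpace (ℕ → ℝ × ℕ × (ℕ → ℕ)) := inferInstance
  obtain ⟨t, h2, h3, h4⟩ := refine_top (f := fun x => (H x, fun k => H (g k x)))
    (h1.prodMk (measurable_pi_lambda _ fun k => h1.comp (g1 k)))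
  have h5 : ∀ k, Continuous fun x => H (g k x) := fun k => (continuous_apply k).comp h4.snd
  refine core hE g2 (lab := fun x => v (l x)) (φ := t1.invFun) t2 t1.leftInverse_invFun
    (fun α => by simp [v, l]) (fun x hx => ?_) (fun x s => ?_) hb.injective h4.fst.fst
    (fun k => (h5 k).fst) (fun o => (isClosed_discrete {n | v n = o}).preimage h4.fst.snd.fst)
    (fun k o => (isClosed_discrete {n | v n = o}).preimage (h5 k).snd.fst) h4.fst.snd.snd
    fun k => (h5 k).snd.snd
  · by_cases h : x ∈ range θ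
    · obtain ⟨α, rfl⟩ := h
      rw [t1.leftInverse_invFun]
    · simp only [v, l, if_neg h] at hx
      cases hx
  · refine Classical.byContradiction fun h => ?_
    have h6 : ∀ b : Bool, ∃ α, E x (θ α) ∧ (u (c (θ α))).2 = b := fun b => by
      obtain ⟨n, hn⟩ := hu (s, b)
      obtain ⟨y, a1, a2⟩ := c2 x n
      by_cases a3 : y ∈ range θ
      · obtain ⟨α, rfl⟩ := a3
        exact ⟨α, a1, by rw [a2, hn]⟩
      · exact (h ⟨y, a1, by simp only [v, l, if_neg a3, a2, hn]⟩).elim
    obtain ⟨α, a1, a2⟩ := h6 true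
    obtain ⟨β, a3, a4⟩ := h6 false
    rw [t2 _ _ (hE.trans (hE.symm a1) a3), a4] at a2
    simp at a2

end Pool.Agent.Results.MP_daea50_lc.MinimalFSigma
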